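import Pool.Agent.TH668.Csp.P1
import Pool.Agent.W994.AR.Final

/-!
# A circuit complexity dichotomy for almost all infinite templates

Every template 𝔸, on any domain, that pp-constructs K₃ needs exponential-size randomised circuits
of monotone real gates, even with a few arbitrary gates, and so does every promise template that
pp-constructs approximate graph colouring. For a homogeneous structure 𝔹 in a finite signature and
a finite family Γ of Aut(𝔹)-invariant relations, all but a doubly exponentially small proportion of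
the expansions of Γ by Aut(𝔹)-invariant relations of large arities are templates whose constraint
satisfaction problem is either solved by monotone circuits of linear size or has this lower bound.
-/

namespace Pool.Agent.Results.MP_6ab439_lc.CircuitDichotomy

open H630VC H630SD H630AC
open Pool.Agent.W994.AR
open Pool.Agent.TH668.Csp (Constructs)

/-- The promise problem of telling the instances with a homomorphism to 𝔸 from the instances
without homomorphism to 𝔹 is hard: for `0 ≤ a < 1`, `0 < c < (1 - a) / 52` and `0 < ξ`, if `N` is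
large, then every randomised family of circuits of monotone real gates with further arbitrary gates,
that separates these instances over `N` variables with advantage `ξ` and for which the product of
the numbers (number of wires + 1) over the further gates is at most `N ^ a`, contains a circuit with
more than `2 ^ (N ^ c)` gates and wires. -/
def Hard {A B ι : Type} {ar : ι → ℕ} (𝔸 : Str ι ar A) (𝔹 : Str ι ar B) : Prop :=
  ∀ a c ξ : ℝ, 0 ≤ a → a < 1 → 0 < c → c < (1 - a) / 52 → 0 < ξ →
    ∃ N₀ : ℕ, ∀ N : ℕ, N₀ ≤ N → ∀ (R : Type) [Fintype R] [Nonempty R]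
      (f : R → Set (Con ar (Fin N)) → ℝ) (l : R → List (Set (Con ar (Fin N)) → ℝ))
      (q : R → List (List ((Set (Con ar (Fin N)) → ℝ) × ℝ))),
      (∀ r, FProg (conInputs ar (Fin N)) (l r) (q r)) → (∀ r, f r ∈ l r) →
      PDecides (fun F => ¬ H630CD.Sat 𝔹 F) (fun F => H630CD.Sat 𝔸 F) ξ f →
      (∀ r, (combos (q r) : ℝ) ≤ (N : ℝ) ^ a) →
      ∃ r, (2 : ℝ) ^ ((N : ℝ) ^ c) < (l r).length + wires (q r)

/-- The constraint satisfaction problem of 𝔸 is easy: for every number `N` of variables a circuit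
of monotone real gates without further gates, of size at most `2 n + 1` where `n` is the number of
possible constraints, decides the instances over `N` variables. -/
def Easy {A ι : Type} {ar : ι → ℕ} (𝔸 : Str ι ar A) : Prop :=
  ∀ N : ℕ, ∃ (f : Set (Con ar (Fin N)) → ℝ) (l : List (Set (Con ar (Fin N)) → ℝ)),
    Prog (conInputs ar (Fin N)) l ∧ f ∈ l ∧ l.length ≤ 2 * Nat.card (Con ar (Fin N)) + 1 ∧
    ∀ F : Set (Con ar (Fin N)),
      (H630CD.Sat 𝔸 F → f F < 1) ∧ (¬ H630CD.Sat 𝔸 F → 1 ≤ f F)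

open Classical in
/-- ORs of bits have linear-size circuits -/
theorem or_prog {ι V : Type} {ar : ι → ℕ} (S : Finset (Con ar V)) :
    ∃ l : List (Set (Con ar V) → ℝ), Prog (conInputs ar V) l ∧
      (fun F : Set (Con ar V) => if ∃ c ∈ S, c ∈ F then (1 : ℝ) else 0) ∈ l ∧
      l.length ≤ 2 * S.card + 1 := by
  induction S using Finset.induction_on with
  | empty =>
    refine ⟨[fun _ => 0], Prog.input Prog.nil (Or.inr ⟨0, rfl⟩), ?_, by simp⟩
    simp
  | insert c S hc ih =>
    obtain ⟨l, hl, hf, hlen⟩ := ih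
    set f : Set (Con ar V) → ℝ := fun F => if ∃ c ∈ S, c ∈ F then (1 : ℝ) else 0 with hfdef
    set g : Set (Con ar V) → ℝ := fun F => if c ∈ F then (1 : ℝ) else 0 with hgdef
    refine ⟨(fun x => max (g x) (f x)) :: g :: l, ?_, ?_, ?_⟩
    · exact Prog.gate (φ := max) (Prog.input hl (Or.inl ⟨c, rfl⟩))
        (fun a a' b b' h1 h2 => max_le_max h1 h2) List.mem_cons_self
        (List.mem_cons_of_mem _ hf)
    · have h : (fun F : Set (Con ar V) => if ∃ c' ∈ insert c S, c' ∈ F then (1 : ℝ) else 0) =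
          fun x => max (g x) (f x) := by
        funext F
        simp only [hfdef, hgdef]
        by_cases h1 : c ∈ F
        · have h2 : ∃ c' ∈ insert c S, c' ∈ F := ⟨c, Finset.mem_insert_self _ _, h1⟩
          rw [if_pos h2, if_pos h1]
          split_ifs <;> simp
        · by_cases h3 : ∃ c' ∈ S, c' ∈ F
          · have h2 : ∃ c' ∈ insert c S, c' ∈ F := by
              obtain ⟨c', h4, h5⟩ := h3
              exact ⟨c', Finset.mem_insert_of_mem h4, h5⟩
            rw [if_pos h2, if_neg h1, if_pos h3]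
            simp
          · have h2 : ¬ ∃ c' ∈ insert c S, c' ∈ F := by
              rintro ⟨c', h4, h5⟩
              rcases Finset.mem_insert.1 h4 with rfl | h4
              · exact h1 h5
              · exact h3 ⟨c', h4, h5⟩
            rw [if_neg h2, if_neg h1, if_neg h3]
            simp
      rw [h]
      exact List.mem_cons_self
    · rw [Finset.card_insert_of_notMem hc]
      simp only [List.length_cons]
      omega

/-- templates with a constant endomorphism are easy -/
theorem easy_of_const {A ι : Type} [Finite ι] {ar : ι → ℕ} {𝔸 : Str ι ar A} (h : ConstEndo 𝔸) :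
    Easy 𝔸 := by
  classical
  intro N
  have : Finite (Con ar (Fin N)) := inferInstance
  have := Fintype.ofFinite (Con ar (Fin N))
  obtain ⟨l, hl, hf, hlen⟩ := or_prog
    (Finset.univ.filter fun c : Con ar (Fin N) => ¬ (𝔸 c.1).Nonempty)
  refine ⟨_, l, hl, hf, ?_, fun F => ?_⟩
  · refine le_trans hlen ?_
    have h1 := Finset.card_filter_le (Finset.univ : Finset (Con ar (Fin N)))
      (fun c => ¬ (𝔸 c.1).Nonempty)
    rw [Finset.card_univ, ← Nat.card_eq_fintype_card] at h1
    omega
  · have key : H630CD.Sat 𝔸 F ↔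
        ¬ ∃ c ∈ (Finset.univ.filter fun c : Con ar (Fin N) => ¬ (𝔸 c.1).Nonempty), c ∈ F := by
      constructor
      · rintro ⟨x, hx⟩ ⟨c, hc, hcF⟩
        exact (Finset.mem_filter.1 hc).2 ⟨_, hx c hcF⟩
      · intro h1
        obtain ⟨b, hb⟩ := h
        refine ⟨fun _ => b, fun c hc => ?_⟩
        have h2 : (𝔸 c.1).Nonempty := by
          by_contra h3
          exact h1 ⟨c, Finset.mem_filter.2 ⟨Finset.mem_univ _, h3⟩, hc⟩
        obtain ⟨v, hv⟩ := h2
        exact hb c.1 v hv
    constructor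
    · intro h1
      rw [if_neg (key.1 h1)]
      norm_num
    · intro h1
      rw [if_pos (not_not.1 fun h2 => h1 (key.2 h2))]

theorem result :
    -- the lower bound for all templates that pp-construct K₃, on any domain
    (∀ {A ι : Type} {ar : ι → ℕ} (𝔸 : Str ι ar A), PPConstructsK3 𝔸 → Hard 𝔸 𝔸) ∧
    -- the lower bound for all promise templates that pp-construct approximate graph colouring
    (∀ {A B ι : Type} {ar : ι → ℕ} (𝔸 : Str ι ar A) (𝔹 : Str ι ar B) (K : ℕ), 3 ≤ K →
      Constructs 𝔸 𝔹 K → Hard 𝔸 𝔹) ∧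
    -- the dichotomy for almost all templates
    ∀ {B σ ι : Type} [Nontrivial B] [Finite σ] [Finite ι] {arB : σ → ℕ} {arΓ : ι → ℕ}
      (𝔹 : Str σ arB B) (_ : Homogeneous 𝔹) (Γ : Str ι arΓ B)
      (_ : ∀ l, Invar (autGroup 𝔹) (Γ l)),
      (∀ n, Finite (InvRel (autGroup 𝔹) (Fin n))) ∧
      ∃ C c δ : ℝ, 0 < C ∧ 0 < c ∧ 0 < δ ∧
        ∀ (t : ℕ) (k : Fin t → ℕ) (m : ℕ), 1 ≤ t → (∀ j, m ≤ k j) →
          (Nat.card {R : ∀ j, InvRel (autGroup 𝔹) (Fin (k j)) //
            ¬ (Easy (expand Γ (fun j => (R j).1)) ∨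
              Hard (expand Γ (fun j => (R j).1)) (expand Γ (fun j => (R j).1)))} : ℝ) ≤
            t * C * Real.exp (-(δ * Real.exp (c * m))) *
              Nat.card (∀ j, InvRel (autGroup 𝔹) (Fin (k j))) := by
  classical
  have hpc : ∀ {A B ι : Type} {ar : ι → ℕ} (𝔸 : Str ι ar A) (𝔹 : Str ι ar B) (K : ℕ), 3 ≤ K →
      Constructs 𝔸 𝔹 K → Hard 𝔸 𝔹 := by
    intro A B ι ar 𝔸 𝔹 K hK hC a c ξ ha0 ha hc0 hc hξ
    exact Pool.Agent.TH668.Csp.lower 𝔸 𝔹 K hK hC a c ξ ha0 ha hc0 hc hξ
  have hk3 : ∀ {A ι : Type} {ar : ι → ℕ} (𝔸 : Str ι ar A), PPConstructsK3 𝔸 → Hard 𝔸 𝔸 := by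
    intro A ι ar 𝔸 h
    exact hpc 𝔸 𝔸 3 (le_refl 3) (Pool.Agent.TH668.Csp.constructs_of_k3 𝔸 h)
  refine ⟨hk3, hpc, ?_⟩
  intro B σ ι _ _ _ arB arΓ 𝔹 h𝔹 Γ hΓ
  have hfin : ∀ k, Finite (Orb (autGroup 𝔹) (Fin k)) := fun k => hom_finite h𝔹 (Fin k)
  have hfinI : ∀ k, Finite (InvRel (autGroup 𝔹) (Fin k)) := fun k => by
    have := hfin k
    exact finite_inv _ _
  refine ⟨hfinI, ?_⟩
  obtain ⟨C, c, δ, hC, hc, hδ, hbd⟩ :=
    rich_bound_many (autGroup 𝔹) (dim arB arΓ) (dim_pos _ _) hfin
  refine ⟨C, c, δ, hC, hc, hδ, ?_⟩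
  intro t k m ht hm
  have h1 := hbd t k m hm
  refine le_trans ?_ h1
  have : Finite (∀ j, InvRel (autGroup 𝔹) (Fin (k j))) := inferInstance
  have h2 : Nat.card {R : ∀ j, InvRel (autGroup 𝔹) (Fin (k j)) //
      ¬ (Easy (expand Γ (fun j => (R j).1)) ∨
          Hard (expand Γ (fun j => (R j).1)) (expand Γ (fun j => (R j).1)))} ≤
      Nat.card {R : ∀ j, InvRel (autGroup 𝔹) (Fin (k j)) //
        ¬ ∀ j, Rich (autGroup 𝔹) (Fin (dim arB arΓ)) (R j).1} := by
    apply Nat.card_le_card_of_injective (fun R => ⟨R.1, fun h => R.2 (by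
      by_cases hcst : ConstEndo (expand Γ (fun j => (R.1 j).1))
      · exact Or.inl (easy_of_const hcst)
      · exact Or.inr (hk3 _ (max_of_rich 𝔹 h𝔹 Γ hΓ ht R.1 h hcst).1))⟩)
    intro R R' h
    exact Subtype.ext (congrArg (fun x => x.1) h)
  exact_mod_cast h2

end Pool.Agent.Results.MP_6ab439_lc.CircuitDichotomy
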