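import Pool.Agent.R786.RC.Main

/-!
# MP_6ab439_lc: templates coloured by a finite core

`H` is a finite core over an arbitrary relational signature, `A` is a structure with a homomorphism
`col` to `H` that is rich (`Rich`): for some binary relation `lt` on `A`, an `lt`-increasing tuple
is related in `A` as soon as its colours are related in `H`, and every finite subset of `A` has
`lt`-lower and `lt`-upper bounds of every colour.  The main examples are the products `C × H`.

We show that every endomorphism of `A` acts on the colours by an automorphism of `H`, and that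
every finite system of pseudo-minor identities of `A`, in particular the pseudo-Siggers identity,
descends to `H`.
-/

namespace Pool.Agent.Results.MP_6ab439_lc.ColouredByCore

open Pool.Agent.R786.RC

/-- The structure on the rationals in which every relation holds exactly for the strictly
increasing tuples; for one binary relation symbol this is `(ℚ, <)`. -/
def incQ {S : Type} (ar : S → ℕ) : ∀ s, (Fin (ar s) → ℚ) → Prop := fun _ x => StrictMono x

theorem incQ_pseudoSiggers {S : Type} (ar : S → ℕ) : PseudoSiggers ar (incQ ar) := by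
  refine ⟨fun x => min (x 0) (min (x 1) (x 2)), id, id, ?_, fun _ _ h => h, fun _ _ h => h, ?_⟩
  · intro s x hx j j' hj
    show min (x 0 j) (min (x 1 j) (x 2 j)) < min (x 0 j') (min (x 1 j') (x 2 j'))
    have h0 := hx 0 hj
    have h1 := hx 1 hj
    have h2 := hx 2 hj
    simp only [lt_min_iff, min_lt_iff]
    exact ⟨Or.inl h0, Or.inr (Or.inl h1), Or.inr (Or.inr h2)⟩
  · intro x y z
    show min x (min y z) = min y (min z x)
    rw [min_comm x, min_assoc]

theorem q_bounds (U : Finset ℚ) : (∃ d, ∀ u ∈ U, d < u) ∧ ∃ e, ∀ u ∈ U, u < e := by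
  obtain ⟨d, hd⟩ := U.bddBelow
  obtain ⟨e, he⟩ := U.bddAbove
  refine ⟨⟨d - 1, fun u hu => ?_⟩, ⟨e + 1, fun u hu => ?_⟩⟩
  · have : d ≤ u := hd hu
    linarith
  · have : u ≤ e := he hu
    linarith

theorem result :
    -- structures with a rich colouring by a finite core
    (∀ (S : Type) (ar : S → ℕ) (A H : Type) (R : ∀ s, (Fin (ar s) → A) → Prop)
      (T : ∀ s, (Fin (ar s) → H) → Prop) (col : A → H) (lt : A → A → Prop),
      Finite H → IsCore ar T → Rich ar R T col lt →
      (∀ α : A → A, IsHom ar R R α →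
        ∃ σ : H → H, IsHom ar T T σ ∧ Function.Bijective σ ∧ ∀ a, col (α a) = σ (col a)) ∧
      (∀ (κ : Type) [Finite κ] (a : κ → Type) [∀ k, Finite (a k)] (μ : Type)
        (f : ∀ k, (a k → A) → A) (_ : ∀ k, IsPol ar R (f k))
        (α : μ → A → A) (_ : ∀ m, IsHom ar R R (α m)),
        ∃ (g : ∀ k, (a k → H) → H) (σ : μ → H → H), (∀ k, IsPol ar T (g k)) ∧
          (∀ m, IsHom ar T T (σ m)) ∧
          ∀ (V : Type) (k l : κ) (m n : μ) (π : a k → V) (ρ : a l → V),
            (∀ x : V → A, α m (f k (x ∘ π)) = α n (f l (x ∘ ρ))) →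
            ∀ x : V → H, σ m (g k (x ∘ π)) = σ n (g l (x ∘ ρ))) ∧
      (PseudoSiggers ar R → PseudoSiggers ar T)) ∧
    -- products with a finite core
    (∀ (S : Type) (ar : S → ℕ) (C H : Type) (Q : ∀ s, (Fin (ar s) → C) → Prop)
      (T : ∀ s, (Fin (ar s) → H) → Prop) (lt : C → C → Prop), Finite H → IsCore ar T →
      (∀ s x, (∀ i j, i < j → lt (x i) (x j)) → Q s x) →
      (∀ U : Finset C, (∃ d, ∀ u ∈ U, lt d u) ∧ ∃ e, ∀ u ∈ U, lt u e) →
      Rich ar (prodR ar Q T) T Prod.snd (fun p q => lt p.1 q.1) ∧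
      (PseudoSiggers ar (prodR ar Q T) → PseudoSiggers ar T) ∧
      (PseudoSiggers ar Q → (PseudoSiggers ar (prodR ar Q T) ↔ PseudoSiggers ar T))) ∧
    -- products of the rationals with a finite core
    (∀ (S : Type) (ar : S → ℕ) (H : Type) (T : ∀ s, (Fin (ar s) → H) → Prop),
      Finite H → IsCore ar T →
      (PseudoSiggers ar (prodR ar (incQ ar) T) ↔ PseudoSiggers ar T)) := by
  have hprod : ∀ (S : Type) (ar : S → ℕ) (C H : Type) (Q : ∀ s, (Fin (ar s) → C) → Prop)
      (T : ∀ s, (Fin (ar s) → H) → Prop) (lt : C → C → Prop), Finite H → IsCore ar T →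
      (∀ s x, (∀ i j, i < j → lt (x i) (x j)) → Q s x) →
      (∀ U : Finset C, (∃ d, ∀ u ∈ U, lt d u) ∧ ∃ e, ∀ u ∈ U, lt u e) →
      Rich ar (prodR ar Q T) T Prod.snd (fun p q => lt p.1 q.1) ∧
      (PseudoSiggers ar (prodR ar Q T) → PseudoSiggers ar T) ∧
      (PseudoSiggers ar Q → (PseudoSiggers ar (prodR ar Q T) ↔ PseudoSiggers ar T)) := by
    intro S ar C H Q T lt hf hc h0 h1
    have hr := rich_prod (T := T) h0 h1
    exact ⟨hr, fun h => pseudoSiggers_down hr hc h, fun hQ =>
      ⟨fun h => pseudoSiggers_down hr hc h, fun h => pseudoSiggers_prod hQ h⟩⟩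
  refine ⟨?_, hprod, ?_⟩
  · intro S ar A H R T col lt hf hc hr
    refine ⟨fun α hα => ?_, ?_, fun h => pseudoSiggers_down hr hc h⟩
    · obtain ⟨σ, hσ, h⟩ := color hr hc hα
      exact ⟨σ, hσ, (Finite.injective_iff_bijective).1 (hc σ hσ), h⟩
    · intro κ _ a _ μ f hf α hα
      exact descend hr hc f hf α hα
  · intro S ar H T hf hc
    exact (hprod S ar ℚ H (incQ ar) T (fun a b => a < b) hf hc
      (fun s x h i j hij => h i j hij) q_bounds).2.2 (incQ_pseudoSiggers ar)

end Pool.Agent.Results.MP_6ab439_lc.ColouredByCore
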